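import Pool.Agent.L5helper25.Cov

/-!
# Weak abundance for log canonical pairs dominated by coverings of uniruled varieties

Let `V ⇢ Y` be a generically finite rational map between varieties of dimension `n` (of any degree, not
necessarily a Galois covering, possibly with intermediate coverings), and `V°` an open variety birational
to `V`. We assume that `V°` has many logarithmic canonical forms relative to `Y`: there are rational
canonical forms `ω j` of `V`, such that

* the `s * ω j` are logarithmic canonical forms on `V°` for all `s` in a set `H` of rational functions
  on `Y`, which separates sufficiently many general points of `Y`,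
* for every covering `V ⇢ V' ⇢ Y`, where `V' ⇢ Y` is not birational, some `ω j` has a nonzero trace on
  `V'` (if there is no covering strictly between `V` and `Y` this only means that some `ω j` is not
  zero).

For example `V ⊂ P ^ (n + 1)` is a smooth hypersurface of degree `d`, without boundary, `Y = P ^ n`, the
map is the projection from a general point (so that there are no coverings strictly between `V` and
`Y`), and there is only the form `ω = dx / f_y`, where `f (x, y) = 0` is the affine equation of `V`: then
`H` is the set of the polynomials of degree at most `d - 2 - n` in `x`, which separates `d - 1 - n`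
points. Similarly for complete intersections, for coverings of `P ^ n`, of products of projective spaces,
or of any other variety `Y`, with branch divisors of sufficiently large degree.

Let `V ⇢ X` be any dominant rational map of finite degree to a normal projective variety `X` (nothing is
assumed about this map), `Δ` an effective `ℚ`-divisor such that

1. the prime divisors of `X` below the boundary of `V°` have coefficient at least one in `Δ`,

and let `H` separate `2 [ℂ(W) : ℂ(X)]` points, where `W` is the image of `V` in `X × Y`. Then either
`K_X + Δ` is big, `κ(K_X + Δ) = ν(K_X + Δ) = n`, and `K_X + Δ` itself has already `n + 1` sections whose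
ratios are algebraically independent; or `V ⇢ X` factors through `Y ⇢ X`. If `Y` is covered by rational
curves (uniruled, with `Y°` covered by images of the affine line) then the following holds in the second
case. Let `(X, Δ)` be log canonical, and

2. the divisors over `X` below divisors over `Y` with centre on `Y°` have discrepancy `≥ 0` with respect
   to `(X, Δ)`, i.e. `(X, Δ)` is canonical along the images of the general curves of the covering family
   of `Y°`.

Then `K_X + Δ` is not pseudo-effective, and `κ(K_X + Δ) = ν(K_X + Δ) = -∞`. So weak abundance holds for
all these log canonical pairs: the number is `-∞` or `n`, and it is `-∞` if and only if `V ⇢ X` factors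
through `Y`. The variety `X` can have arbitrary singularities and is not assumed to be
`ℚ`-factorial, `Δ` is not assumed to be big, and the pair is not assumed to be klt.

If `Y` is the product of the varieties `X i` (or generically finite over it), `i < k`, then it is
sufficient that `H` is the set of the products `∏ s i`, `s i ∈ H i`, and that the set `H i` of functions
on `X i` separates `2 d i` points, `d i` being the degree over `W_i` of the image of `V` in `W_i × X i`,
where `W_i` is the image of `V` in `X × X 0 × ... × X (i - 1)`. This is the version which is stated here;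
the function field `E` of `Y` is the compositum of the function fields `F i` of the `X i`.

Proof. The traces of the `(∏ s i) * ω j` are sections of `K_X + Δ`, by (1). If all of them vanish, or if
two generic points of `X` have the same image under the map given by the traces, then this is a relation
between the points of `V` over one point, or over the two points, multilinear in the values of the
`s i`. At most `2 d i` points of `X i` occur if the first `i` coordinates are fixed, and they are
separated, so we can fix all the coordinates. If `V ⇢ X` does not factor through `Y`, then `W ⇢ Y` is not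
birational, some `ω j` has a nonzero trace on `W`, and it follows that the two points of `X` are images
of points of `V` over the same point of `Y`; so the map given by the traces is generically finite. In
the other case the images of the affine lines on `Y°` cover `X`.
-/

set_option autoImplicit false
set_option linter.overlappingInstances false
set_option maxHeartbeats 4000000
set_option synthInstance.maxHeartbeats 400000

open FF Module Pool.Agent Pool.Agent.W602.GT Pool.Agent.Y172
open Pool.Agent.Y191 (LogDisc)
open Pool.Agent.W619.PL (IsA1Uniruled)
open Pool.Agent.R882.LT (TraceNe)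

namespace Pool.Agent.Results.MP_2c56d9_ag.CoveringPairs

/-- **The functions in `H` separate `r` points.** `E` is the function field of a variety; the embeddings
`σ : E → Ω` are its generic points with coordinates in the field `Ω`. At most `r` different such points
impose independent conditions on the functions `s ∈ H`: if `∑ c σ * σ s = 0` for all `s` then all the
coefficients `c σ` are zero. -/
def SeparatesPoints {E : Type} [Field E] [Algebra ℂ E] (H : Set E) (r : ℕ) : Prop :=
  ∀ (Ω : Type) [Field Ω] [Algebra ℂ Ω] [IsAlgClosed Ω] (A : Finset (E →ₐ[ℂ] Ω)), A.card ≤ r →
    ∀ c : (E →ₐ[ℂ] Ω) → Ω, (∀ s ∈ H, ∑ σ ∈ A, c σ * σ s = 0) → ∀ σ ∈ A, c σ = 0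

variable {K : Type} [Field K] [Algebra ℂ K] {k : ℕ}

/-- The function field of the image `W_i` of `V` in the product of `X` and the first `i` factors.
Here `K` and `L` are the function fields of `V` and `X`, and `F l` is the one of the `l`-th
factor. -/
noncomputable def Img (F : Fin k → IntermediateField ℂ K) (L : Type) [Field L] [Algebra L K]
    (i : ℕ) : IntermediateField L K :=
  IntermediateField.adjoin L {z | ∃ l : Fin k, l.val < i ∧ z ∈ F l}

/-- The degree over `W_i` of the image of `V` in the product of `W_i` and the `i`-th factor. -/
noncomputable def deg (F : Fin k → IntermediateField ℂ K) (L : Type) [Field L] [Algebra L K]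
    (i : Fin k) : ℕ :=
  finrank (Img F L i) (IntermediateField.adjoin (Img F L i) (F i : Set K))

theorem img_eq (F : Fin k → IntermediateField ℂ K) (L : Type) [Field L] [Algebra ℂ L]
    [Algebra L K] [IsScalarTower ℂ L K] [FiniteDimensional L K] (i : ℕ) :
    N145.PC.MF F L (N145.PC.Js k i) = Img F L i := by
  unfold N145.PC.MF N145.PC.MJ Img
  congr 1
  ext z
  simp only [Set.mem_iUnion, N145.PC.mem_Js, Set.mem_range, exists_prop]
  constructor
  · rintro ⟨l, hl, z, rfl⟩
    exact ⟨l, hl, z.2⟩
  · rintro ⟨l, hl, hz⟩
    exact ⟨l, hl, ⟨z, hz⟩, rfl⟩

/-- The place `w` of `K` lies over the place `v` of `E`. -/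
def Above {K E : Type} [Field K] [Field E] [Algebra ℂ K] [Algebra ℂ E] [Algebra E K]
    (w : Place ℂ K) (v : Place ℂ E) : Prop :=
  ∃ e : ℕ, 0 < e ∧ ∀ f : E, w.ord (algebraMap E K f) = e * v.ord f

/-- The rational map `V ⇢ X` factors through `V ⇢ Y`: `ℂ(X) ⊆ ℂ(Y)`. -/
def Factors (L : Type) [Field L] [Algebra L K] (E : IntermediateField ℂ K) : Prop :=
  ∀ f : L, algebraMap L K f ∈ E

/-- **Weak abundance for log canonical pairs dominated by coverings of uniruled varieties.** Let `K` be
the function field of `V` and `E ⊆ K` the one of `Y`, the compositum of the function fields `F i` of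
varieties `X i`, `i < k`; the extension is finite, and the dimension is `n`. Let `BK` be the boundary of
`V°` (the set of the places without centre on `V°`), let `ω j` be rational canonical forms on `V`, and
`H i` sets of rational functions on `X i` such that `(∏ s i) * ω j` is a logarithmic canonical form of
`V°` for all `s i ∈ H i` and all `j`; for every field `E < M ≤ K` some `ω j` has a nonzero trace to `M`.
Let `Y°` be `A¹`-uniruled, with boundary `BE`. Let `L ⊆ K` be a subfield such that the extension is
finite, and `(X, Δ)` a log canonical pair, `X` a normal projective variety with function field `L` (and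
generic point `y`), `Δ` an effective `ℚ`-divisor. Suppose that (1) the prime divisors of `X` below the
boundary of `V°` have coefficient at least one (hence one) in `Δ`. If for all `i < k` the set `H i`
separates `2 d i` points, where `d i` is the degree over `W_i` of the image of `V` in the product of
`W_i` and `X i`, then `κ(K_X + Δ) = ν(K_X + Δ) = n` if `V ⇢ X` does not factor through `Y`, and
`K_X + Δ` has `n + 1` sections whose ratios are algebraically independent (this does not need that
`(X, Δ)` is log canonical and `Y°` uniruled). If it factors through `Y`, and (2) the divisors over `X`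
below divisors over `Y` with a centre on `Y°` have log discrepancy at least one, then
`κ(K_X + Δ) = ν(K_X + Δ) = -∞`. -/
theorem result [Algebra.EssFiniteType ℂ K]
    (F : Fin k → IntermediateField ℂ K)
    (E : IntermediateField ℂ K) (hE : E = ⨆ i, F i) [FiniteDimensional E K]
    (n : ℕ) (hK : Algebra.trdeg ℂ K = n)
    (BK : Place ℂ K → Prop) (H : ∀ i, Set (F i)) (J : Type)
    (ω : J → (Fin n → Derivation ℂ K K) → K) (hω : ∀ j, IsPluri 1 (ω j))
    (hωH : ∀ (j : J) (s : ∀ i, F i), (∀ i, s i ∈ H i) →
      LogSec ℂ K n 1 BK (fun D => (∏ i, (s i : K)) * ω j D))
    (htr : ∀ M : IntermediateField ℂ K, E < M → ∃ j, TraceNe (ω j) M)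
    (L : Type) [Field L] [Algebra ℂ L] [Algebra L K] [IsScalarTower ℂ L K] [FiniteDimensional L K]
    (hH : ∀ i, SeparatesPoints (H i) (2 * deg F L i))
    {N : ℕ} (y : Fin (N + 1) → L) (hy : NormalModel y) (Δ : Place ℂ L → ℚ) (hΔ : Effective y Δ)
    (h1 : ∀ P : Place ℂ L, IsPrimeDivisor y P → (∃ Q : Place ℂ K, Above Q P ∧ BK Q) → 1 ≤ Δ P) :
    (¬ Factors L E → kodairaDim y n Δ = (n : WithBot ℕ) ∧
      (∀ A, Effective y A → Integral y A → numericalDim y n Δ A = (n : EReal)) ∧
      ∃ (η : Fin (n + 1) → (Fin n → Derivation ℂ L L) → L)
        (D : Fin n → Derivation ℂ L L),
        (∀ l, IsSection y n 1 Δ (η l)) ∧ η 0 D ≠ 0 ∧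
        AlgebraicIndependent ℂ fun l : Fin n => η l.succ D / η 0 D) ∧
    (Factors L E → ∀ BE : Place ℂ E → Prop, IsA1Uniruled ℂ E n BE → LogCanonical y n Δ →
      (∀ (P : Place ℂ L) (R : Place ℂ K) (Q : Place ℂ E), Divisorial n P → Above R P →
        Above R Q → ¬ BE Q → LogDisc y n Δ P 1) →
      kodairaDim y n Δ = ⊥ ∧ ∀ A, Effective y A → numericalDim y n Δ A = ⊥) := by
  constructor
  · intro hfac
    rcases L5helper25.cov_lc_pair (F := F) (E := E) (L := L) (H := H) hK hE
      (g := fun i => 2 * deg F L i + 1) (fun Ω _ _ _ i A hA c hc => hH i Ω A (by omega) c hc)
      (fun i => by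
        rw [img_eq]
        exact Nat.lt_succ_self _) (BK := BK) hω (fun j s hs Q hQ => by
        obtain ⟨h3, h4, h5⟩ := hωH j s hs
        exact ⟨h4 Q hQ, h5 Q hQ⟩) htr hy hΔ (fun P hP h => by
        obtain ⟨Q, e, h3, h4⟩ := h
        exact h1 P hP ⟨Q, ⟨e, h3.1, h3.2⟩, h4⟩) with h | ⟨h3, h4, h5⟩
    · exact absurd h hfac
    · exact ⟨h4, h5, h3⟩
  · intro hfac BE hA hlc h2
    exact L5helper25.fac_lc_pair (K := K) hK hA hy hlc
      (fun P R Q e f hP hRP hRQ hQ => h2 P R Q hP ⟨e, hRP.1, hRP.2⟩ ⟨f, hRQ.1, hRQ.2⟩ hQ) hfac

end Pool.Agent.Results.MP_2c56d9_ag.CoveringPairs
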