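import Pool.Agent.L5helper25.AsmC

/-!
# Weak abundance for log canonical pairs dominated by families of open curves

Let `V ⇢ B` be a family of curves (with connected fibres, of any genus, with any moduli), `dim B = n`,
and `V°` an open variety birational to `V`, so that the general fibres of `V° ⇢ B` are open or
projective curves. We assume that `V°` has many logarithmic canonical forms: there are rational
canonical forms `ω j` of `V`, whose restrictions to the geometric generic fibre (a curve over the
algebraic closure `Λ` of `ℂ(B)`) generate the space of the logarithmic differentials of this open curve,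
and the `s * ω j` are logarithmic canonical forms on `V°` for all `s` in a set `H` of rational functions
on `B`, and `H` separates sufficiently many general points of `B`.

For example this is true if `B` has sufficiently many logarithmic canonical forms (complements of
divisors of large degree in complete intersections, ...), since the direct image of the relative
dualizing sheaf becomes globally generated at the generic point after a sufficiently positive twist.

Let `V ⇢ X` be any dominant rational map of finite degree, not necessarily compatible with the
fibration, and not necessarily a quotient by a group. The general fibres can be mapped to `X` with any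
degree. If `(X, Δ)` is any log canonical pair, `Δ` an effective `ℚ`-divisor, such that

1. the prime divisors of `X` below the boundary of `V°` are in `⌊Δ⌋` (they have coefficient one),
2. if the divisor `Q` over `V` dominates `B`, and has a centre on `V°`, then the divisor `P` over `X`
   below `Q` has discrepancy `≥ 0` with respect to `(X, Δ)`,

and `H` separates `2 [ℂ(W) : ℂ(X)]` points, where `W` is the image of `V` in `X × B`, then weak
abundance holds for `(X, Δ)`: `κ(K_X + Δ) = ν(K_X + Δ)`. Moreover this number is `-∞`, `dim X - 1` or
`dim X`, and if `K_X + Δ` is pseudo-effective then `K_X + Δ` itself (its round-down) has already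
`dim X` sections whose ratios are algebraically independent. So `(X, Δ)` can have arbitrary log
canonical singularities, and arbitrary fractional boundary components, on the part which is not
dominated by the general fibres of `V° ⇢ B`.

The generic fibre of `W ⇢ B` can be a curve of any genus, for example rational or elliptic, and then it
has no differentials, or only one, although the fibres of `V ⇢ B` have many.

If `B` is the product of the varieties `X i` (or generically finite over it), `i < k`, then it is
sufficient that `H` is the set of the products `∏ s i`, `s i ∈ H i`, and that the set `H i` of functions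
on `X i` separates `2 d i` points, `d i` being the degree over `W_i` of the image of `V` in `W_i × X i`,
where `W_i` is the image of `V` in `X × X 0 × ... × X (i - 1)`. This is the version which is stated here;
the function field `E` of `B` is the compositum of the function fields `F i` of the `X i`, and it is
algebraically closed in the one of `V`.

There is no condition on the irregularity, `Δ` is not assumed to be big, the numerical dimension is big,
the dimension is arbitrary and the pair is not assumed to be klt, `X` is not assumed to be
`ℚ`-factorial.

Proof. The traces of the `(∏ s i) * ω j` are sections of `K_X + Δ`, by (1). If all of them vanish, or if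
two generic points of `X` have the same image under the map given by the traces, then this is a relation
between the points of `V` over one point, or over the two points, multilinear in the values of the
`s i`. At most `2 d i` points of `X i` occur if the first `i` coordinates are fixed, and they are
separated, so we can fix all the coordinates. Either the two points are images of points of `V` over the
same point of `B`, so that the image of the map given by the traces has at least the dimension of `B`, or
the traces of all `ω j` to the function field of `W` are zero. In the second case all logarithmic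
differentials of the geometric generic fibre of `V° ⇢ B` have trace zero on its image in `X × B`; hence
this image is rational, with at most one point below the boundary. So `X` is covered by images of the
affine line on which `(X, Δ)` is canonical, by (2), and `K_X + Δ` is not pseudo-effective; there are no
sections of `m (K_X + Δ) + A` for large `m`. In the first case `κ(K_X + Δ) ≥ dim X - 1`. If `κ` is
`dim X - 1` then `h⁰(m (K_X + Δ) + A) ≤ C m ^ (dim X - 1)`, since otherwise `K_X + Δ` would be big.
-/

set_option autoImplicit false
set_option linter.overlappingInstances false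
set_option maxHeartbeats 4000000
set_option synthInstance.maxHeartbeats 400000

open FF Module Pool.Agent Pool.Agent.W602.GT Pool.Agent.Y172
open Pool.Agent.Y191 (LogDisc)

namespace Pool.Agent.Results.MP_2c56d9_ag.CurveFamilyPairs

/-- **The functions in `H` separate `r` points.** `E` is the function field of a variety; the embeddings
`σ : E → Ω` are its generic points with coordinates in the field `Ω`. At most `r` different such points
impose independent conditions on the functions `s ∈ H`: if `∑ c σ * σ s = 0` for all `s` then all the
coefficients `c σ` are zero. -/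
def SeparatesPoints {E : Type} [Field E] [Algebra ℂ E] (H : Set E) (r : ℕ) : Prop :=
  ∀ (Ω : Type) [Field Ω] [Algebra ℂ Ω] [IsAlgClosed Ω] (A : Finset (E →ₐ[ℂ] Ω)), A.card ≤ r →
    ∀ c : (E →ₐ[ℂ] Ω) → Ω, (∀ s ∈ H, ∑ σ ∈ A, c σ * σ s = 0) → ∀ σ ∈ A, c σ = 0

/-- **Logarithmic differentials of an open curve.** `Z` is the function field of a curve over the field
`Λ`, `δ` a rational vector field, not zero, `B` a set of points. The rational differential `η` with
`η(δ) = f` is `(f / δ s) ds`, for any local parameter `s`. It has no poles outside `B`, and at most
simple poles on `B`. -/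
def LogDifferential {Λ Z : Type} [Field Λ] [Field Z] [Algebra Λ Z] (δ : Derivation Λ Z Z)
    (B : Set (Place Λ Z)) (f : Z) : Prop :=
  ∀ (w : Place Λ Z) (s : Z), w.ord s = 1 → (w ∉ B → w.Reg (f / δ s)) ∧ w.Reg (s * (f / δ s))

variable {K : Type} [Field K] [Algebra ℂ K] {k : ℕ}

/-- The function field of the image `W_i` of `V` in the product of `X` and the first `i` factors.
Here `K` and `L` are the function fields of `V` and `X`, and `F l` is the one of the `l`-th
factor. -/
noncomputable def Img (F : Fin k → IntermediateField ℂ K) (L : Type) [Field L] [Algebra L K]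
    (i : ℕ) : IntermediateField L K :=
  IntermediateField.adjoin L {z | ∃ l : Fin k, l.val < i ∧ z ∈ F l}

/-- The degree over `W_i` of the image of `V` in the product of `W_i` and the `i`-th factor. -/
noncomputable def deg (F : Fin k → IntermediateField ℂ K) (L : Type) [Field L] [Algebra L K]
    (i : Fin k) : ℕ :=
  finrank (Img F L i) (IntermediateField.adjoin (Img F L i) (F i : Set K))

theorem img_eq (F : Fin k → IntermediateField ℂ K) (L : Type) [Field L] [Algebra ℂ L]
    [Algebra L K] [IsScalarTower ℂ L K] [FiniteDimensional L K] (i : ℕ) :
    N145.PC.MF F L (N145.PC.Js k i) = Img F L i := by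
  unfold N145.PC.MF N145.PC.MJ Img
  congr 1
  ext z
  simp only [Set.mem_iUnion, N145.PC.mem_Js, Set.mem_range, exists_prop]
  constructor
  · rintro ⟨l, hl, z, rfl⟩
    exact ⟨l, hl, z.2⟩
  · rintro ⟨l, hl, hz⟩
    exact ⟨l, hl, ⟨z, hz⟩, rfl⟩

/-- The place `w` of `Z` lies over the place `v` of `K`. -/
def Above {k K Λ Z : Type} [Field k] [Field K] [Field Λ] [Field Z] [Algebra k K] [Algebra Λ Z]
    [Algebra K Z] (w : Place Λ Z) (v : Place k K) : Prop :=
  ∃ e : ℕ, 0 < e ∧ ∀ f : K, w.ord (algebraMap K Z f) = e * v.ord f

/-- **Weak abundance for log canonical pairs dominated by families of open curves.** Let `K` be the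
function field of `V` and `E ⊆ K` the one of `B`, the compositum of the function fields `F i` of
varieties `X i`, `i < k`; `E` is algebraically closed in `K`, the dimension of `B` is `n` and the one of
`V` is `n + 1`. Let `BK` be the boundary of `V°` (the set of the places without centre on `V°`), let
`ω j` be rational canonical forms on `V`, and `H i` sets of rational functions on `X i` such that
`(∏ s i) * ω j` is a logarithmic canonical form of `V°` for all `s i ∈ H i` and all `j`. Let `Λ` be an
algebraic closure of `E` and `Z` the function field of the geometric generic fibre, a curve over `Λ` (the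
compositum of `K` and `Λ`). Let `D` be a rational frame of the tangent bundle of `V` which is adapted to
the fibration: it preserves `E`, and the last vector field is tangent to the fibres; let `δ` be the
vector field on the geometric generic fibre defined by the last one. The `ω j` generate the logarithmic
differentials of the open geometric generic fibre: the restriction of `ω j` to the fibre, evaluated at
`δ`, is `ω j D`, up to a factor in `E` which does not depend on `j`.
Let `L ⊆ K` be a subfield such that the extension is finite, and `(X, Δ)` a log canonical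
pair, `X` a normal projective variety with function field `L` (and generic point `y`), `Δ` an effective
`ℚ`-divisor. Suppose that (1) the prime divisors of `X` below the boundary of `V°` have coefficient at
least one (hence one) in `Δ`, and (2) the divisors over `X` below divisors over `V` which dominate `B`
and have a centre on `V°` have log discrepancy at least one. If for all `i < k` the set `H i` separates
`2 d i` points, where `d i` is the degree over `W_i` of the image of `V` in the product of `W_i` and
`X i`, then `κ(K_X + Δ) = ν(K_X + Δ)`; this number is `-∞`, `n` or `n + 1 = dim X`, and if it is not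
`-∞` then `K_X + Δ` has `n + 1` sections whose ratios are algebraically independent. -/
theorem result [Algebra.EssFiniteType ℂ K]
    (F : Fin k → IntermediateField ℂ K)
    (E : IntermediateField ℂ K) (hE : E = ⨆ i, F i) (hcl : ∀ z : K, IsAlgebraic E z → z ∈ E)
    (n : ℕ) (hB : Algebra.trdeg ℂ E = n) (hK : Algebra.trdeg ℂ K = (n + 1 : ℕ))
    (BK : Place ℂ K → Prop) (H : ∀ i, Set (F i)) (J : Type)
    (ω : J → (Fin (n + 1) → Derivation ℂ K K) → K) (hω : ∀ j, IsPluri 1 (ω j))
    (hωH : ∀ (j : J) (s : ∀ i, F i), (∀ i, s i ∈ H i) →
      LogSec ℂ K (n + 1) 1 BK (fun D => (∏ i, (s i : K)) * ω j D))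
    (Λ Z : Type) [Field Λ] [Field Z] [Algebra E Λ] [Algebra Λ Z] [Algebra K Z]
    [IsScalarTower E Λ Z] [Algebra ℂ Λ] [Algebra ℂ Z] [IsScalarTower ℂ Λ Z] [IsScalarTower ℂ K Z]
    [IsScalarTower ℂ E Λ] [Algebra.IsAlgebraic E Λ] [IsAlgClosed Λ]
    (hZ : IntermediateField.adjoin Λ (Set.range (algebraMap K Z)) = ⊤)
    (D : Fin (n + 1) → Derivation ℂ K K) (hD : LinearIndependent K D)
    (hDE : ∀ i, ∀ z ∈ E, D i z ∈ E) (hDl : ∀ z ∈ E, D (Fin.last n) z = 0)
    (δ : Derivation Λ Z Z) (hδ : ∀ z : K, δ (algebraMap K Z z) = algebraMap K Z (D (Fin.last n) z))
    (hgen : ∀ f : Z, LogDifferential δ {w | ∃ v : Place ℂ K, Above w v ∧ BK v} f →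
      f ∈ Submodule.span Λ (Set.range fun j => algebraMap K Z (ω j D)))
    (L : Type) [Field L] [Algebra ℂ L] [Algebra L K] [IsScalarTower ℂ L K] [FiniteDimensional L K]
    (hH : ∀ i, SeparatesPoints (H i) (2 * deg F L i))
    {N : ℕ} (y : Fin (N + 1) → L) (hy : NormalModel y) (Δ : Place ℂ L → ℚ) (hΔ : Effective y Δ)
    (hlc : LogCanonical y (n + 1) Δ)
    (h1 : ∀ P : Place ℂ L, IsPrimeDivisor y P → (∃ Q : Place ℂ K, Above Q P ∧ BK Q) → 1 ≤ Δ P)
    (h2 : ∀ (P : Place ℂ L) (Q : Place ℂ K), Divisorial (n + 1) P → Above Q P →
      (∀ z ∈ E, Q.ord z = 0) → ¬ BK Q → LogDisc y (n + 1) Δ P 1) :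
    (kodairaDim y (n + 1) Δ = ⊥ ∧ ∀ A, Effective y A → numericalDim y (n + 1) Δ A = ⊥) ∨
    ∃ d : ℕ, (d = n ∨ d = n + 1) ∧
      kodairaDim y (n + 1) Δ = (d : WithBot ℕ) ∧
      (∀ A, Effective y A → Integral y A → numericalDim y (n + 1) Δ A = (d : EReal)) ∧
      ∃ (η : Fin (n + 1) → (Fin (n + 1) → Derivation ℂ L L) → L)
        (D : Fin (n + 1) → Derivation ℂ L L),
        (∀ l, IsSection y (n + 1) 1 Δ (η l)) ∧ η 0 D ≠ 0 ∧
        AlgebraicIndependent ℂ fun l : Fin n => η l.succ D / η 0 D := by
  have hLK : Algebra.trdeg E K = (1 : ℕ) := Y174.trdeg_LK (r := 1) hB hK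
  have hΛ0 : CharZero Λ := charZero_of_injective_algebraMap (algebraMap ℂ Λ).injective
  have htrF : Algebra.trdeg Λ Z = (1 : ℕ) := Y174.trdeg_F (L := E) (K := K) hLK hZ
  have hessF : Algebra.EssFiniteType Λ Z := Y174.ess_F (k := ℂ) (K := K) inferInstance hZ
  have hFF : IsFF Λ Z := ⟨hessF, by rw [htrF]; simp⟩
  have hδ0 : δ ≠ 0 := by
    intro h
    refine hD.ne_zero (Fin.last n) ?_
    ext z
    have h3 := hδ z
    rw [h] at h3
    exact (_root_.map_eq_zero (algebraMap K Z)).1 h3.symm
  have hspan : ∀ f ∈ N145.PL.HL δ {w | ∃ v : Place ℂ K, Above w v ∧ BK v},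
      f ∈ Submodule.span Λ (Set.range fun j => algebraMap K Z (ω j D)) := by
    intro f hf
    refine hgen f fun w s hs => ?_
    have hs0 : s ≠ 0 := by
      rintro rfl
      rw [w.ord_zero] at hs
      exact zero_ne_one hs
    have h3 := W603.LV.der_pi_ne_zero hδ0 w hs
    have h4 := W603.LV.vo_eq w hs hδ0
    rcases hf w with h5 | h5
    · rw [h5, zero_div, mul_zero]
      exact ⟨fun _ => w.reg_zero, w.reg_zero⟩
    by_cases hf0 : f = 0
    · rw [hf0, zero_div, mul_zero]
      exact ⟨fun _ => w.reg_zero, w.reg_zero⟩
    have h6 : w.ord (f / δ s) = w.ord f - W603.LV.vo w δ := by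
      rw [w.ord_div hf0 h3, h4]
    have h7 : f / δ s ≠ 0 := div_ne_zero hf0 h3
    refine ⟨fun hw => (w.reg_iff h7).2 ?_, (w.reg_iff (mul_ne_zero hs0 h7)).2 ?_⟩
    · rw [h6]
      rw [N145.PL.bd, if_neg hw] at h5
      linarith
    · rw [w.ord_mul hs0 h7, hs, h6]
      have h8 : N145.PL.bd {w | ∃ v : Place ℂ K, Above w v ∧ BK v} w ≤ 1 := by
        unfold N145.PL.bd
        split_ifs <;> norm_num
      linarith
  have hsec : ∀ (j : J) (s : ∀ i, F i), (∀ i, s i ∈ H i) → ∀ Q, Divisorial (n + 1) Q →
      R882.LT.SecAt BK Q (fun D => (∏ i, algebraMap (F i) K (s i)) * ω j D) := by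
    intro j s hs Q hQ
    obtain ⟨h3, h4, h5⟩ := hωH j s hs
    exact ⟨h4 Q hQ, h5 Q hQ⟩
  rcases L5helper25.fam_lc_pair (F := F) (E := E) (Λ := Λ) (Z := Z) (L := L) (H := H) hK hE hB hcl
    (g := fun i => 2 * deg F L i + 1) (fun Ω _ _ _ i A hA c hc => hH i Ω A (by omega) c hc)
    (fun i => by
      rw [img_eq]
      exact Nat.lt_succ_self _) (BK := BK) hω hsec hZ
    (BZ := {w | ∃ v : Place ℂ K, Above w v ∧ BK v}) (fun w v e he hwv hv => ⟨v, ⟨e, he, hwv⟩, hv⟩)
    hD hDE hDl hδ hspan hy hΔ hlc
    (fun P hP h => by
      obtain ⟨Q, e, h3, h4⟩ := h
      exact h1 P hP ⟨Q, ⟨e, h3.1, h3.2⟩, h4⟩)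
    (fun P Q e hP hQ hz hB => h2 P Q hP ⟨e, hQ.1, hQ.2⟩ hz hB) with
    h | ⟨h3, d, hd, h4, h5⟩
  · exact Or.inl h
  · exact Or.inr ⟨d, hd, h4, h5, h3⟩

end Pool.Agent.Results.MP_2c56d9_ag.CurveFamilyPairs
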