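import Pool.Agent.L5helper25.AsmA

/-!
# Weak abundance for log canonical pairs dominated by fibre spaces

Let `V ⇢ B` be a fibre space (with connected fibres) of complex varieties, `dim B = p`, with fibres of
dimension `f + 1 ≥ 1`, and `V°` an open variety birational to `V`. We assume that `V° ⇢ B` has many
logarithmic canonical forms, and the right number of them in the direction of the fibres:

* the numerical dimension of the log canonical divisor `K + D` of the generic fibre `F°` of `V°` is
  at most `r`; here the generic fibre is a variety over `ℂ(B)`, or over any algebraic extension `Λ` of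
  `ℂ(B)`, for example the algebraic closure;
* `V` has rational canonical forms `ω 0, ..., ω r`, whose ratios are algebraically independent over
  `ℂ(B)` (so that `κ(K + D) = ν(K + D) = r` for the generic fibre), such that the `s * ω j` are
  logarithmic canonical forms on `V°` for all `s` in a set `H` of rational functions on `B`, and `H`
  separates sufficiently many general points of `B`.

For example `V° = B° × F°` with `B°` an open variety whose logarithmic canonical forms separate points
(complements of divisors of large degree in complete intersections, ...) and `F°` any open variety of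
dimension `f + 1` with `κ = ν = r` such that the logarithmic canonical image of `F°` has dimension `r`
(for `r = 0`: abelian varieties, semi-abelian varieties, Calabi-Yau varieties, open log Calabi-Yau
varieties such as the complement of a reduced anticanonical divisor), or nontrivial families with such
fibres.

Let `V ⇢ X` be any dominant rational map of finite degree such that `V ⇢ X × B` is birational onto its
image. It need not be related to the fibration otherwise, for example it need not be the quotient by a
group. If `(X, Δ)` is any log canonical pair, `Δ` an effective `ℚ`-divisor, such that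

1. the prime divisors of `X` below the boundary of `V°` are in `⌊Δ⌋` (they have coefficient one),
2. if the divisor `Q` over `V` dominates `B`, and has a centre on `V°`, then the divisor `P` over `X`
   below `Q` has discrepancy `≥ 0` with respect to `(X, Δ)`,

and `H` separates `2 [ℂ(V) : ℂ(X)]` points, then weak abundance holds for `(X, Δ)`:
`κ(K_X + Δ) = ν(K_X + Δ) = p + r`, and `K_X + Δ` itself (its round-down) has already `p + r + 1` sections
whose ratios are algebraically independent. So `(X, Δ)` can have arbitrary log canonical singularities,
and arbitrary fractional boundary components, on the part which is not dominated by the general fibres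
of `V° ⇢ B`.

If `B` is the product of the varieties `X i` (or generically finite over it), `i < k`, then it is
sufficient that `H` is the set of the products `∏ s i`, `s i ∈ H i`, and that the set `H i` of functions
on `X i` separates `2 d i` points, `d i` being the degree over `W_i` of the image of `V` in `W_i × X i`,
where `W_i` is the image of `V` in `X × X 0 × ... × X (i - 1)`; `[ℂ(V) : ℂ(X)]` is the product of the
`d i`. This is the version which is stated here; the function field `E` of `B` is the compositum of the
function fields `F i` of the `X i`, and it is algebraically closed in the one of `V`.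

There is no condition on the irregularity, `Δ` is not assumed to be big, the numerical dimension can be
any number from `p` to `dim X`, the dimension is arbitrary and the pair is not assumed to be klt.

Proof. The traces of the `(∏ s i) * ω j` are sections of `K_X + Δ`, by (1). Suppose that two generic
points of `X` have the same image under the map given by the traces. This is a relation between the
points of `V` over the two points, multilinear in the values of the `s i`. At most `2 d i` points of
`X i` occur if the first `i` coordinates are fixed, and they are separated, so we can fix all the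
coordinates. Then only one point over each of the two points is left, with the same image in `B`, and
with the same ratios of the `ω j`. It follows that the field generated by the ratios of the traces has
transcendence degree at least `p + r`. On the other hand a pluricanonical form of `X` with poles in
`m Δ + A` has, after pulling it back to `V` and restricting it to the generic fibre, only poles in
`m D + A`, by (2), and an induction over the jets along the fibre bounds the number of sections by
`C m ^ (p + r)`.
-/

set_option autoImplicit false
set_option linter.overlappingInstances false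
set_option maxHeartbeats 4000000
set_option synthInstance.maxHeartbeats 400000

open FF Module Pool.Agent Pool.Agent.W602.GT Pool.Agent.Y172
open Pool.Agent.Y191 (LogDisc)
open Pool.Agent.Y174 (PairNum)

namespace Pool.Agent.Results.MP_2c56d9_ag.FibreSpacePairs

/-- **The functions in `H` separate `r` points.** `E` is the function field of a variety; the embeddings
`σ : E → Ω` are its generic points with coordinates in the field `Ω`. At most `r` different such points
impose independent conditions on the functions `s ∈ H`: if `∑ c σ * σ s = 0` for all `s` then all the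
coefficients `c σ` are zero. -/
def SeparatesPoints {E : Type} [Field E] [Algebra ℂ E] (H : Set E) (r : ℕ) : Prop :=
  ∀ (Ω : Type) [Field Ω] [Algebra ℂ Ω] [IsAlgClosed Ω] (A : Finset (E →ₐ[ℂ] Ω)), A.card ≤ r →
    ∀ c : (E →ₐ[ℂ] Ω) → Ω, (∀ s ∈ H, ∑ σ ∈ A, c σ * σ s = 0) → ∀ σ ∈ A, c σ = 0

variable {K : Type} [Field K] [Algebra ℂ K] {k : ℕ}

/-- The function field of the image `W_i` of `V` in the product of `X` and the first `i` factors.
Here `K` and `L` are the function fields of `V` and `X`, and `F l` is the one of the `l`-th
factor. -/
noncomputable def Img (F : Fin k → IntermediateField ℂ K) (L : Type) [Field L] [Algebra L K]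
    (i : ℕ) : IntermediateField L K :=
  IntermediateField.adjoin L {z | ∃ l : Fin k, l.val < i ∧ z ∈ F l}

/-- The degree over `W_i` of the image of `V` in the product of `W_i` and the `i`-th factor. -/
noncomputable def deg (F : Fin k → IntermediateField ℂ K) (L : Type) [Field L] [Algebra L K]
    (i : Fin k) : ℕ :=
  finrank (Img F L i) (IntermediateField.adjoin (Img F L i) (F i : Set K))

theorem img_eq (F : Fin k → IntermediateField ℂ K) (L : Type) [Field L] [Algebra ℂ L]
    [Algebra L K] [IsScalarTower ℂ L K] [FiniteDimensional L K] (i : ℕ) :
    N145.PC.MF F L (N145.PC.Js k i) = Img F L i := by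
  unfold N145.PC.MF N145.PC.MJ Img
  congr 1
  ext z
  simp only [Set.mem_iUnion, N145.PC.mem_Js, Set.mem_range, exists_prop]
  constructor
  · rintro ⟨l, hl, z, rfl⟩
    exact ⟨l, hl, z.2⟩
  · rintro ⟨l, hl, hz⟩
    exact ⟨l, hl, ⟨z, hz⟩, rfl⟩

/-- The place `w` of `Z` lies over the place `v` of `K`. -/
def Above {k K Λ Z : Type} [Field k] [Field K] [Field Λ] [Field Z] [Algebra k K] [Algebra Λ Z]
    [Algebra K Z] (w : Place Λ Z) (v : Place k K) : Prop :=
  ∃ e : ℕ, 0 < e ∧ ∀ f : K, w.ord (algebraMap K Z f) = e * v.ord f

open scoped Classical in
/-- **Weak abundance for log canonical pairs dominated by fibre spaces.** Let `K` be the function field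
of `V` and `E ⊆ K` the one of `B`, the compositum of the function fields `F i` of varieties `X i`,
`i < k`; `E` is algebraically closed in `K`, the dimension of `B` is `p` and the one of `V` is
`p + (f + 1)`. Let `BK` be the boundary of `V°` (the set of the places without centre on `V°`), let
`ω 0, ..., ω r` be rational canonical forms on `V` whose ratios are algebraically independent over `E`,
and `H i` sets of rational functions on `X i` such that `(∏ s i) * ω j` is a logarithmic canonical form
of `V°` for all `s i ∈ H i` and all `j`. Let `Λ` be an algebraic extension of `E`, and `Z` the function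
field of the generic fibre over `Λ` (the compositum of `K` and `Λ`), and let the numerical dimension of
the log canonical divisor of the generic fibre of `V°` be at most `r`.
Let `L ⊆ K` be a subfield such that the extension is finite, `K = L E`, and `(X, Δ)` a log canonical
pair, `X` a normal projective variety with function field `L` (and generic point `y`), `Δ` an effective
`ℚ`-divisor. Suppose that (1) the prime divisors of `X` below the boundary of `V°` have coefficient at
least one (hence one) in `Δ`, and (2) the divisors over `X` below divisors over `V` which dominate `B`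
and have a centre on `V°` have log discrepancy at least one. If for all `i < k` the set `H i` separates
`2 d i` points, where `d i` is the degree over `W_i` of the image of `V` in the product of `W_i` and
`X i`, then `κ(K_X + Δ) = ν(K_X + Δ) = p + r`, and `K_X + Δ` has `p + r + 1` sections whose ratios are
algebraically independent. -/
theorem result [Algebra.EssFiniteType ℂ K]
    (F : Fin k → IntermediateField ℂ K) [∀ i, Algebra.EssFiniteType ℂ (F i)]
    (E : IntermediateField ℂ K) (hE : E = ⨆ i, F i) (hcl : ∀ z : K, IsAlgebraic E z → z ∈ E)
    (p f r : ℕ) (hp : Algebra.trdeg ℂ E = p) (hK : Algebra.trdeg ℂ K = (p + (f + 1) : ℕ))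
    (BK : Place ℂ K → Prop) (H : ∀ i, Set (F i))
    (ω : Fin (r + 1) → (Fin (p + (f + 1)) → Derivation ℂ K K) → K)
    (hω : ∀ j, IsPluri 1 (ω j))
    (hωH : ∀ (j : Fin (r + 1)) (s : ∀ i, F i), (∀ i, s i ∈ H i) →
      LogSec ℂ K (p + (f + 1)) 1 BK (fun D => (∏ i, (s i : K)) * ω j D))
    (D : Fin (p + (f + 1)) → Derivation ℂ K K) (hD : ω 0 D ≠ 0)
    (hind : AlgebraicIndependent E fun j : Fin r => ω j.succ D / ω 0 D)
    (Λ Z : Type) [Field Λ] [Field Z] [Algebra E Λ] [Algebra Λ Z] [Algebra K Z]
    [IsScalarTower E Λ Z] [Algebra ℂ Λ] [Algebra ℂ Z] [IsScalarTower ℂ Λ Z] [IsScalarTower ℂ K Z]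
    [IsScalarTower ℂ E Λ] [Algebra.IsAlgebraic E Λ]
    (hZ : IntermediateField.adjoin Λ (Set.range (algebraMap K Z)) = ⊤)
    (hnum : PairNum Λ Z (f + 1)
      (fun w => if ∃ v : Place ℂ K, Above w v ∧ BK v then 1 else 0) r)
    (L : Type) [Field L] [Algebra ℂ L] [Algebra L K] [IsScalarTower ℂ L K] [FiniteDimensional L K]
    (hL : IntermediateField.adjoin L (E : Set K) = ⊤)
    (hH : ∀ i, SeparatesPoints (H i) (2 * deg F L i))
    {N : ℕ} (y : Fin (N + 1) → L) (hy : NormalModel y) (Δ : Place ℂ L → ℚ) (hΔ : Effective y Δ)
    (hlc : LogCanonical y (p + (f + 1)) Δ)
    (h1 : ∀ P : Place ℂ L, IsPrimeDivisor y P → (∃ Q : Place ℂ K, Above Q P ∧ BK Q) → 1 ≤ Δ P)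
    (h2 : ∀ (P : Place ℂ L) (Q : Place ℂ K), Divisorial (p + (f + 1)) P → Above Q P →
      (∀ z ∈ E, Q.ord z = 0) → ¬ BK Q → LogDisc y (p + (f + 1)) Δ P 1) :
    kodairaDim y (p + (f + 1)) Δ = ((p + r : ℕ) : WithBot ℕ) ∧
      (∀ A, Effective y A → Integral y A →
        numericalDim y (p + (f + 1)) Δ A = ((p + r : ℕ) : EReal)) ∧
      ∃ (η : Fin (p + r + 1) → (Fin (p + (f + 1)) → Derivation ℂ L L) → L)
        (D : Fin (p + (f + 1)) → Derivation ℂ L L),
        (∀ l, IsSection y (p + (f + 1)) 1 Δ (η l)) ∧ η 0 D ≠ 0 ∧
        AlgebraicIndependent ℂ fun l : Fin (p + r) => η l.succ D / η 0 D := by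
  have hessE : Algebra.EssFiniteType ℂ E := N145.SX.ess_iSup (F := F) hE
  have htop : N145.PC.MF F L Finset.univ = ⊤ := by
    have hJ : (Finset.univ : Finset (Fin k)) = N145.PC.Js k k := by
      ext l
      rw [N145.PC.mem_Js]
      exact ⟨fun _ => l.2, fun _ => Finset.mem_univ _⟩
    rw [hJ, img_eq, eq_top_iff, ← hL]
    rw [IntermediateField.adjoin_le_iff]
    have h3 : E ≤ (Img F L k).restrictScalars ℂ := by
      rw [hE]
      refine iSup_le fun i z hz => ?_
      rw [IntermediateField.mem_restrictScalars]
      exact IntermediateField.subset_adjoin _ _ ⟨i, i.2, hz⟩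
    exact fun z hz => h3 hz
  refine L5helper25.fib_lc_pair (F := F) (E := E) (Λ := Λ) (Z := Z) (L := L) (H := H) hE hcl hp hK htop
    (g := fun i => 2 * deg F L i + 1) (fun Ω _ _ _ i A hA c hc => hH i Ω A (by omega) c hc)
    (fun i => by
      rw [img_eq]
      exact Nat.lt_succ_self _) (BK := BK) hω (fun j s hs Q hQ => ?_) hD hind hZ ?_ hy hΔ hlc
    (fun P hP h => ?_) fun P Q e hP hQ hz hB => h2 P Q hP ⟨e, hQ.1, hQ.2⟩ hz hB
  · obtain ⟨h3, h4, h5⟩ := hωH j s hs
    exact ⟨h4 Q hQ, h5 Q hQ⟩
  · have h3 : (fun w : Place Λ Z => if ∃ (v : Place ℂ K) (e : ℕ), Y174.LiesFib w v e ∧ BK v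
        then (1 : ℝ) else 0) = fun w => if ∃ v : Place ℂ K, Above w v ∧ BK v then 1 else 0 := by
      funext w
      congr 1
      apply propext
      constructor
      · rintro ⟨v, e, ⟨h3, h4⟩, h5⟩
        exact ⟨v, ⟨e, h3, h4⟩, h5⟩
      · rintro ⟨v, ⟨e, h3, h4⟩, h5⟩
        exact ⟨v, e, ⟨h3, h4⟩, h5⟩
    rw [h3]
    exact hnum
  · obtain ⟨Q, e, h3, h4⟩ := h
    exact h1 P hP ⟨Q, ⟨e, h3.1, h3.2⟩, h4⟩

end Pool.Agent.Results.MP_2c56d9_ag.FibreSpacePairs
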