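import Pool.Agent.L5helper25.Asm

/-!
# Weak abundance for log canonical pairs dominated by a product of open varieties and an open curve

Let `X° i`, `i < k`, be open varieties of dimension `m i`, and `U = C ∖ B` a curve, open or projective
and of any genus (`B` is finite and may be empty). Let `V = ∏ X i × C ⇢ X` be any dominant rational map
of finite degree to a normal projective variety `X` of dimension `n = ∑ m i + 1`, and let `(X, Δ)` be a
log canonical pair, `Δ` an effective `ℚ`-divisor. The two conditions which connect `Δ` and the open
product are:

1. the prime divisors of `X` below the boundary of `V° = ∏ X° i × U` are in `⌊Δ⌋` (they have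
   coefficient one);
2. if the divisor `Q` over `V` dominates the product of the `X i`, and does not lie over `B`, then the
   divisor `P` over `X` below `Q` has discrepancy `≥ 0` with respect to `(X, Δ)`.

So `(X, Δ)` can have arbitrary log canonical singularities and (over divisors of `∏ X i`) arbitrary
fractional boundary components on the vertical part, and it has to be canonical along the images of the
general curves `{x} × U`. The map need not be related to the product structure, and it need not be the
quotient by a group.

The theorem: if the logarithmic canonical forms of `X° i` separate `2 d i` different general points,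
`d i` being the degree over `W_i` of the image of `V` in `W_i × X i`, where `W_i` is the image of `V` in
`X × X 0 × ... × X (i - 1)`, then weak abundance holds for `(X, Δ)`: `κ(K_X + Δ) = ν(K_X + Δ)`. Moreover
this number is `-∞`, `n - 1` or `n`, and if it is not `-∞` (if `K_X + Δ` is pseudo-effective) then
already `K_X + Δ` itself (its round-down) has `n` sections whose ratios are algebraically independent.

There is no condition on the irregularity of `X`, which can be big, `Δ` is not assumed to be big, the
numerical dimension is big, the dimension is arbitrary and the pair is not assumed to be klt, `X` is not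
assumed to be `ℚ`-factorial.

Proof. Let `f i` be logarithmic canonical forms of the `X° i` and `φ` a differential on `C` with at
most simple poles on `B`. The product of their pullbacks is a logarithmic canonical form of `V°`, and
by (1) its trace is a section of `K_X + Δ`. If the ratios of the traces generate a field over which the
`X i` are not algebraic then there is a relation between the points over two generic points of `X`. At
most `2 d i` points of `X i` occur if the first `i` coordinates are fixed, and they are separated, so we
can fix the coordinates one after the other. It follows that all `φ` have trace zero on the image of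
`{x} × U` in `X × ∏ X i`, for generic `x`; hence this image is rational, with at most one point below
`B`. So `X` is covered by images of the affine line on which `(X, Δ)` is canonical, by (2), and
`K_X + Δ` is not pseudo-effective; there are no sections of `m (K_X + Δ) + A` for large `m`. Otherwise
`κ(K_X + Δ) ≥ n - 1`. If `κ` is `n - 1` then `h⁰(m (K_X + Δ) + A) ≤ C m ^ (n - 1)`: otherwise the
products of the sections with the powers of a suitable function `t` are linearly dependent, and this
gives sections of `m (K_X + Δ) - A'` for any `A'`, so `K_X + Δ` would be big.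
-/

set_option autoImplicit false
set_option linter.overlappingInstances false
set_option maxHeartbeats 4000000
set_option synthInstance.maxHeartbeats 400000

open FF Module Pool.Agent Pool.Agent.W602.GT Pool.Agent.Y172
open Pool.Agent.Y191 (LogDisc)

namespace Pool.Agent.Results.MP_2c56d9_ag.OpenProductPairs

/-- **The logarithmic canonical forms separate `r` points.** `E` is the function field of a
variety `X°` of dimension `m`, `BX` is the set of places of `E` without centre on `X°`, and `D` is a
rational frame of the tangent bundle. The embeddings `σ : E → Ω` are the generic points of `X` with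
coordinates in the field `Ω`. At most `r` different such points impose independent conditions on the
logarithmic canonical forms `ω` (`LogSec` with exponent one): if `∑ c σ * σ (ω D) = 0` for all `ω`
then all the coefficients `c σ` are zero. -/
def SeparatesPoints (E : Type) [Field E] [Algebra ℂ E] (m : ℕ) (BX : Place ℂ E → Prop) (r : ℕ) :
    Prop :=
  ∀ D : Fin m → Derivation ℂ E E, LinearIndependent E D →
    ∀ (Ω : Type) [Field Ω] [Algebra ℂ Ω] [IsAlgClosed Ω] (A : Finset (E →ₐ[ℂ] Ω)), A.card ≤ r →
    ∀ c : (E →ₐ[ℂ] Ω) → Ω,
    (∀ ω : (Fin m → Derivation ℂ E E) → E, LogSec ℂ E m 1 BX ω →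
      ∑ σ ∈ A, c σ * σ (ω D) = 0) → ∀ σ ∈ A, c σ = 0

variable {K : Type} [Field K] [Algebra ℂ K] {k : ℕ}

/-- The function field of the image `W_i` of `V` in the product of `X` and the first `i` factors.
Here `K` and `L` are the function fields of `V` and `X`, and `F l` is the one of the `l`-th
factor. -/
noncomputable def Img (F : Fin (k + 1) → IntermediateField ℂ K) (L : Type) [Field L] [Algebra L K]
    (i : ℕ) : IntermediateField L K :=
  IntermediateField.adjoin L {z | ∃ l : Fin (k + 1), l.val < i ∧ z ∈ F l}

/-- The degree over `W_i` of the image of `V` in the product of `W_i` and the `i`-th factor. -/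
noncomputable def deg (F : Fin (k + 1) → IntermediateField ℂ K) (L : Type) [Field L] [Algebra L K]
    (i : Fin (k + 1)) : ℕ :=
  finrank (Img F L i) (IntermediateField.adjoin (Img F L i) (F i : Set K))

theorem deg_eq (F : Fin (k + 1) → IntermediateField ℂ K) (L : Type) [Field L] [Algebra ℂ L]
    [Algebra L K] [IsScalarTower ℂ L K] [FiniteDimensional L K] (i : Fin (k + 1)) :
    deg F L i = finrank (N145.PC.MF F L (N145.PC.Js (k + 1) i))
      (IntermediateField.adjoin (N145.PC.MF F L (N145.PC.Js (k + 1) i)) (F i : Set K)) := by
  unfold deg Img
  rw [L5helper25.mf_eq]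

/-- The place `Q` of `K` lies over the place `P` of the subfield `E`. -/
def Above {E : Type} [Field E] [Algebra ℂ E] [Algebra E K] (Q : Place ℂ K) (P : Place ℂ E) : Prop :=
  ∃ e : ℕ, 0 < e ∧ ∀ f : E, Q.ord (algebraMap E K f) = e * P.ord f

/-- The place `Q` of the function field `K` of the product lies over a place of `F i`, `i < k`,
without centre on `X° i`, or over a point in `B`: it has no centre on the product of the `X° i` and
`U`. -/
def Boundary {F : Fin (k + 1) → IntermediateField ℂ K}
    (BX : ∀ i : Fin k, Place ℂ (F i.castSucc) → Prop) (B : Set (Place ℂ (F (Fin.last k))))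
    (Q : Place ℂ K) : Prop :=
  (∃ (i : Fin k) (P : Place ℂ (F i.castSucc)), BX i P ∧ Above Q P) ∨ ∃ p ∈ B, Above Q p

/-- The place `Q` dominates the product of the `X i`, `i < k`: it is trivial on the function field of
this product. -/
def Horizontal (F : Fin (k + 1) → IntermediateField ℂ K) (Q : Place ℂ K) : Prop :=
  ∀ z ∈ ⨆ i : Fin k, F i.castSucc, Q.ord z = 0

/-- **Weak abundance for log canonical pairs dominated by a product of open varieties and an open
curve.** Let `K` be the function field of the product `V` of the varieties `X i` with the function
fields `F i`, `i < k`, of dimension `m i`, and of the curve with the function field `F k`, i.e. `K` is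
the compositum and its transcendence degree is `n = ∑ m i + 1`. Let `X° i` be open varieties with the
boundaries `BX i` (the places of `F i` without centre on `X° i`), and let `B` be a finite set of points
of the curve. Let `L ⊆ K` be a subfield such that the extension is finite, let `X` be a normal
projective variety with function field `L` (with generic point `y`) and `Δ` an effective `ℚ`-divisor
such that `(X, Δ)` is log canonical. Suppose that (1) the prime divisors of `X` below the boundary of the
open product have coefficient at least one (hence one) in `Δ`, and (2) the divisors over `X` below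
divisors over `V` which dominate the product of the `X i`, and are not over `B`, have log discrepancy at
least one. If for all `i < k` the logarithmic canonical forms of `X° i` separate `2 d i` points, where
`d i` is the degree over `W_i` of the image of `V` in the product of `W_i` and `X i`, then
`κ(K_X + Δ) = ν(K_X + Δ)`; this number is `-∞`, `n - 1` or `n`, and if it is not `-∞` then `K_X + Δ` has
`n` sections whose ratios are algebraically independent. -/
theorem result [Algebra.EssFiniteType ℂ K] (m : Fin k → ℕ)
    (F : Fin (k + 1) → IntermediateField ℂ K) [∀ i, Algebra.EssFiniteType ℂ (F i)]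
    [IsFF ℂ (F (Fin.last k))] (hF : ⨆ i, F i = ⊤)
    (hm : ∀ i : Fin k, Algebra.trdeg ℂ (F i.castSucc) = m i)
    (hK : Algebra.trdeg ℂ K = (∑ i, m i + 1 : ℕ))
    (BX : ∀ i : Fin k, Place ℂ (F i.castSucc) → Prop) (B : Set (Place ℂ (F (Fin.last k))))
    (hB : B.Finite) (L : Type) [Field L] [Algebra ℂ L]
    [Algebra L K] [IsScalarTower ℂ L K] [FiniteDimensional L K]
    (hX : ∀ i : Fin k, SeparatesPoints (F i.castSucc) (m i) (BX i) (2 * deg F L i.castSucc))
    {N : ℕ} (y : Fin (N + 1) → L) (hy : NormalModel y) (Δ : Place ℂ L → ℚ) (hΔ : Effective y Δ)
    (hlc : LogCanonical y (∑ i, m i + 1) Δ)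
    (h1 : ∀ P : Place ℂ L, IsPrimeDivisor y P →
      (∃ Q : Place ℂ K, Above Q P ∧ Boundary BX B Q) → 1 ≤ Δ P)
    (h2 : ∀ (P : Place ℂ L) (Q : Place ℂ K), Divisorial (∑ i, m i + 1) P → Above Q P →
      Horizontal F Q → (¬ ∃ p ∈ B, Above Q p) → LogDisc y (∑ i, m i + 1) Δ P 1) :
    (kodairaDim y (∑ i, m i + 1) Δ = ⊥ ∧
      ∀ A, Effective y A → numericalDim y (∑ i, m i + 1) Δ A = ⊥) ∨
    ∃ d : ℕ, (d = ∑ i, m i ∨ d = ∑ i, m i + 1) ∧
      kodairaDim y (∑ i, m i + 1) Δ = (d : WithBot ℕ) ∧
      (∀ A, Effective y A → Integral y A → numericalDim y (∑ i, m i + 1) Δ A = (d : EReal)) ∧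
      ∃ (ω : Fin (∑ i, m i + 1) → (Fin (∑ i, m i + 1) → Derivation ℂ L L) → L)
        (D : Fin (∑ i, m i + 1) → Derivation ℂ L L),
        (∀ l, IsSection y (∑ i, m i + 1) 1 Δ (ω l)) ∧ ω 0 D ≠ 0 ∧
        AlgebraicIndependent ℂ fun l : Fin (∑ i, m i) => ω l.succ D / ω 0 D := by
  choose x D hx hD using fun i : Fin k => Pool.Agent.Y172.exists_crd (hm i)
  have hBd : ∀ Q : Place ℂ K, N145.SX.BdM BX B Q → Boundary BX B Q := by
    rintro Q (⟨i, P, e, h3, h4, h5⟩ | ⟨p, hp, e, h4, h5⟩)
    · exact Or.inl ⟨i, P, h3, e, h4, h5⟩
    · exact Or.inr ⟨p, hp, e, h4, h5⟩
  rcases L5helper25.prod_lc_pair (L := L) hF hm hK hx hB (BX := BX)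
    (g := fun i => 2 * deg F L i.castSucc + 1)
    (fun i => N145.SX.sepX_of (hx i) (hD i) fun Ω _ _ _ A hA c hc =>
      hX i (D i) (N145.SX.dual_indep (hD i)) Ω A hA c hc)
    (fun i => by
      rw [deg_eq]
      exact Nat.lt_succ_self _) hy hΔ hlc
    (fun P hP h => by
      obtain ⟨Q, e, h3, h4⟩ := h
      exact h1 P hP ⟨Q, ⟨e, h3.1, h3.2⟩, hBd Q h4⟩)
    (fun P hP => by
      by_contra hcon
      push Not at hcon
      obtain ⟨h3, Q, e, h4, h5, h6⟩ := hcon
      refine h3 (h2 P Q hP ⟨e, h4.1, h4.2⟩ h5 ?_)
      rintro ⟨p, hp, e', h7, h8⟩
      exact h6 p hp e' ⟨h7, h8⟩) with h | ⟨h3, d, hd, h4, h5⟩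
  · exact Or.inl h
  · exact Or.inr ⟨d, hd, h4, h5, h3⟩

end Pool.Agent.Results.MP_2c56d9_ag.OpenProductPairs
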